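import Mathlib

set_option autoImplicit false

namespace Pool.Agent.Results.MP_12f94a_pr.NoStrong

open MeasureTheory ProbabilityTheory Filter Topology ENNReal

/-- The process, listed in the order of occupation: `w k` is the `k`-th occupied vertex, `T k` its
occupation time, `ty k` its type (`false` is FPP_1, `true` is FPP_λ).  `clock b e` is the time type
`b` waits before its attempt along `e`.  At each step the earliest pending attempt towards an
unoccupied vertex is carried out; the vertex gets type FPP_λ if it carries a seed, and the type of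
the attempting vertex otherwise. -/
def Run {V : Type} (G : SimpleGraph V) (o : V) (seed : V → Bool) (clock : Bool → Sym2 V → ℝ)
    (w : ℕ → V) (T : ℕ → ℝ) (ty : ℕ → Bool) : Prop :=
  (w 0 = o ∧ T 0 = 0 ∧ ty 0 = false) ∧ ∀ k, (∀ j ≤ k, w j ≠ w (k + 1)) ∧
    (∃ i ≤ k, G.Adj (w i) (w (k + 1)) ∧ T (k + 1) = T i + clock (ty i) s(w i, w (k + 1)) ∧
      ty (k + 1) = (seed (w (k + 1)) || ty i)) ∧
    ∀ i ≤ k, ∀ v, G.Adj (w i) v → (∀ j ≤ k, w j ≠ v) → T (k + 1) ≤ T i + clock (ty i) s(w i, v)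

/-- The vertices eventually occupied by type `b` contain an infinite connected set. -/
def Survives {V : Type} (G : SimpleGraph V) (w : ℕ → V) (ty : ℕ → Bool) (b : Bool) : Prop :=
  ∃ S : Set V, S.Infinite ∧ (G.induce S).Connected ∧ ∀ v ∈ S, ∃ k, w k = v ∧ ty k = b

abbrev V := ℕ × ℕ × ℕ

def G : SimpleGraph V where
  Adj u v := (u.1 = v.1 ∧ ((u.2.1 = v.2.1 ∧ (u.2.2 + 1 = v.2.2 ∨ v.2.2 + 1 = u.2.2)) ∨
    (u.2.2 = v.2.2 ∧ (u.2.1 + 1 = v.2.1 ∨ v.2.1 + 1 = u.2.1)))) ∨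
    (u.2.1 = 0 ∧ u.2.2 = 0 ∧ v.2.1 = 0 ∧ v.2.2 = 0 ∧ (u.1 + 1 = v.1 ∨ v.1 + 1 = u.1))
  symm := ⟨fun _ _ h => by omega⟩
  loopless := ⟨fun _ h => by omega⟩

def D (v : V) : Finset V := {(v.1 + 1, v.2.1, v.2.2), (v.1 - 1, v.2.1, v.2.2),
  (v.1, v.2.1 + 1, v.2.2), (v.1, v.2.1 - 1, v.2.2), (v.1, v.2.1, v.2.2 + 1), (v.1, v.2.1, v.2.2 - 1)}

lemma memD {v u : V} (h : G.Adj v u) : u ∈ D v := by
  obtain ⟨a, b, c⟩ := u
  simp only [G] at h
  simp only [D, Finset.mem_insert, Finset.mem_singleton, Prod.mk.injEq]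
  omega

def box (v : V) (n : ℕ) : Finset V := Finset.Icc (v.1 - n) (v.1 + n) ×ˢ
  Finset.Icc (v.2.1 - n) (v.2.1 + n) ×ˢ Finset.Icc (v.2.2 - n) (v.2.2 + n)

lemma mem_box {K : SimpleGraph V} (hK : K ≤ G) {v u : V} (p : K.Walk v u) {n : ℕ}
    (hn : p.length ≤ n) : u ∈ box v n := by
  induction p generalizing n with
  | nil => simp [box]
  | cons h p ih =>
    have h1 := ih le_rfl
    have h2 := hK h
    simp only [G, box, Finset.mem_product, Finset.mem_Icc, SimpleGraph.Walk.length_cons] at h1 h2 hn ⊢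
    omega

lemma reach (n : ℕ) (v : V) (h : n ≤ v.1) :
    (G.induce {u : V | n ≤ u.1}).Reachable ⟨(n, 0, 0), Nat.le_refl n⟩ ⟨v, h⟩ := by
  obtain ⟨a, b, c⟩ := v
  induction c with
  | succ c ih => exact (ih h).trans (SimpleGraph.Adj.reachable (by simp [G]))
  | zero =>
    induction b with
    | succ b ih => exact (ih h).trans (SimpleGraph.Adj.reachable (by simp [G]))
    | zero =>
      induction a, (show n ≤ a from h) using Nat.le_induction with
      | base => rfl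
      | succ a h1 ih => exact (ih h1).trans (SimpleGraph.Adj.reachable (by simp [G]))

lemma conn (n : ℕ) : (G.induce {u : V | n ≤ u.1}).Connected :=
  (SimpleGraph.connected_iff_exists_forall_reachable _).2 ⟨_, fun v => reach n v.1 v.2⟩

lemma connG : G.Connected := (SimpleGraph.connected_iff_exists_forall_reachable _).2
  ⟨(0, 0, 0), fun v => (reach 0 v (Nat.zero_le _)).map (SimpleGraph.Embedding.induce _).toHom⟩

lemma iso (S : Finset V) : S.card ≤ {v | v ∈ S ∧ ∃ u ∉ S, G.Adj v u}.ncard ^ 2 := by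
  have h1 : ∀ v ∈ S, ∃ c, (v.1, v.2.1, c) ∈ {v | v ∈ S ∧ ∃ u ∉ S, G.Adj v u} := fun v hv => by
    obtain ⟨u, hu, h⟩ := (S.filter fun u => u.1 = v.1 ∧ u.2.1 = v.2.1).exists_max_image
      (fun u => u.2.2) ⟨v, by simp [hv]⟩
    obtain ⟨a, b, c⟩ := u
    simp only [Finset.mem_filter] at hu h
    obtain ⟨h1, rfl, rfl⟩ := hu
    exact ⟨c, h1, (_, _, c + 1), fun h2 => by simpa using h _ ⟨h2, rfl, rfl⟩, by simp [G]⟩
  have h2 : ∀ v ∈ S, ∃ b, (v.1, b, v.2.2) ∈ {v | v ∈ S ∧ ∃ u ∉ S, G.Adj v u} := fun v hv => by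
    obtain ⟨u, hu, h⟩ := (S.filter fun u => u.1 = v.1 ∧ u.2.2 = v.2.2).exists_max_image
      (fun u => u.2.1) ⟨v, by simp [hv]⟩
    obtain ⟨a, b, c⟩ := u
    simp only [Finset.mem_filter] at hu h
    obtain ⟨h1, rfl, rfl⟩ := hu
    exact ⟨b, h1, (_, b + 1, _), fun h2 => by simpa using h _ ⟨h2, rfl, rfl⟩, by simp [G]⟩
  choose! f hf using h1
  choose! g hg using h2
  have h3 : {v | v ∈ S ∧ ∃ u ∉ S, G.Adj v u}.Finite := S.finite_toSet.subset fun _ h => h.1
  rw [pow_two, ← Set.ncard_prod, ← Set.ncard_coe_finset]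
  refine Set.ncard_le_ncard_of_injOn (fun v => ((v.1, v.2.1, f v), (v.1, g v, v.2.2)))
    (fun v hv => ⟨hf v hv, hg v hv⟩) (fun u _ v _ h => ?_) (h3.prod h3)
  simp only [Prod.mk.injEq] at h
  exact Prod.ext h.1.1 (Prod.ext h.1.2.1 h.2.2.2)

lemma exists_run (seed : V → Bool) (clock : Bool → Sym2 V → ℝ) :
    ∃ w T ty, Run G (0, 0, 0) seed clock w T ty := by
  have h1 : ∀ (k : ℕ) (f : ℕ → V × ℝ × Bool), ∃ x : V × ℝ × Bool, (∀ j ≤ k, (f j).1 ≠ x.1) ∧
      (∃ i ≤ k, G.Adj (f i).1 x.1 ∧ x.2.1 = (f i).2.1 + clock (f i).2.2 s((f i).1, x.1) ∧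
        x.2.2 = (seed x.1 || (f i).2.2)) ∧ ∀ i ≤ k, ∀ v, G.Adj (f i).1 v →
      (∀ j ≤ k, (f j).1 ≠ v) → x.2.1 ≤ (f i).2.1 + clock (f i).2.2 s((f i).1, v) := by
    intro k f
    obtain ⟨i, hi, h⟩ := (Finset.Iic k).exists_max_image (fun i => (f i).1.2.1) ⟨0, by simp⟩
    obtain ⟨⟨j, v⟩, ⟨h1, h2, h3⟩, h4⟩ := Set.exists_min_image
      {p : ℕ × V | p.1 ≤ k ∧ G.Adj (f p.1).1 p.2 ∧ ∀ j ≤ k, (f j).1 ≠ p.2}
      (fun p => (f p.1).2.1 + clock (f p.1).2.2 s((f p.1).1, p.2))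
      (((Set.finite_Iic k).prod ((Finset.Iic k).biUnion fun i => D (f i).1).finite_toSet).subset
        fun p hp => ⟨hp.1, by simpa using ⟨p.1, hp.1, memD hp.2.1⟩⟩)
      ⟨(i, ((f i).1.1, (f i).1.2.1 + 1, (f i).1.2.2)), Finset.mem_Iic.1 hi, by simp [G],
        fun j hj h' => by simpa [h'] using h j (Finset.mem_Iic.2 hj)⟩
    exact ⟨(v, _, (seed v || (f j).2.2)), h3, ⟨j, h1, h2, rfl, rfl⟩, fun i hi u h5 h6 => h4 (i, u) ⟨hi, h5, h6⟩⟩
  choose nx hnx using h1
  let F : ℕ → ℕ → V × ℝ × Bool := fun k => Nat.rec (fun _ => ((0, 0, 0), 0, false))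
    (fun k f => Function.update f (k + 1) (nx k f)) k
  have h2 : ∀ k, ∀ i ≤ k, F k i = F i i := fun k => by
    induction k with
    | zero => intro i hi; rw [Nat.le_zero.1 hi]
    | succ k ih =>
      intro i hi
      rcases hi.eq_or_lt with rfl | hi
      · rfl
      · exact (Function.update_of_ne hi.ne _ _).trans (ih i (Nat.lt_succ_iff.1 hi))
  refine ⟨fun k => (F k k).1, fun k => (F k k).2.1, fun k => (F k k).2.2, ⟨rfl, rfl, rfl⟩,
    fun k => ?_⟩
  have h3 : F (k + 1) (k + 1) = nx k (F k) := Function.update_self _ _ _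
  obtain ⟨h4, ⟨i, hi, h5⟩, h6⟩ := hnx k (F k)
  simp only [h3]
  exact ⟨fun j hj => h2 k j hj ▸ h4 j hj, ⟨i, hi, h2 k i hi ▸ h5⟩,
    fun i hi v a b => h2 k i hi ▸ h6 i hi v (h2 k i hi ▸ a) fun j hj => (h2 k j hj).symm ▸ b j hj⟩

def Tr (c : Bool → Sym2 V → Prop) : ℕ → V → Finset (Bool × G.edgeSet) → Prop
  | 0, _, _ => True
  | n + 1, v, F => ∃ u, ∃ h : G.Adj v u, ∃ b, (b, ⟨s(v, u), h⟩) ∉ F ∧ c b s(v, u) ∧
      Tr c n u (insert (b, ⟨s(v, u), h⟩) F)

def H (c : Bool → Sym2 V → Prop) : SimpleGraph V where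
  Adj u v := G.Adj u v ∧ ∃ b, c b s(u, v)
  symm := ⟨fun _ _ h => ⟨h.1.symm, Sym2.eq_swap ▸ h.2⟩⟩
  loopless := ⟨fun _ h => G.irrefl h.1⟩

lemma tr_of_walk {c : Bool → Sym2 V → Prop} {v u : V} (p : (H c).Walk v u) (hp : p.edges.Nodup)
    (n : ℕ) (F : Finset (Bool × G.edgeSet)) (hF : ∀ e ∈ F, e.2.1 ∉ p.edges) (hn : n ≤ p.length) :
    Tr c n v F := by
  induction p generalizing n F with
  | nil => rw [Nat.le_zero.1 hn]; trivial
  | cons h p ih =>
    rcases n with _ | n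
    · trivial
    obtain ⟨h1, b, h2⟩ := id h
    rw [SimpleGraph.Walk.edges_cons, List.nodup_cons] at hp
    refine ⟨_, h1, b, fun h3 => hF _ h3 (by simp), h2, ih hp.2 n _ (fun e he => ?_)
      (by simpa using hn)⟩
    rcases Finset.mem_insert.1 he with rfl | he
    · exact hp.1
    · exact fun h3 => hF e he (by simp [h3])

lemma fin_cl {c : Bool → Sym2 V → Prop} (h : ∀ v, ∃ n, ¬ Tr c n v ∅) {A : Set V} (hA : A.Finite) :
    {u | ∃ v ∈ A, (H c).Reachable v u}.Finite := by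
  choose n hn using h
  refine (hA.biUnion fun v _ => (box v (n v)).finite_toSet).subset ?_
  rintro u ⟨v, hv, ⟨p⟩⟩
  refine Set.mem_biUnion hv (mem_box (K := H c) (fun _ _ h => h.1) p.bypass (not_lt.1 fun h => hn v ?_))
  exact tr_of_walk _ p.bypass_isPath.isTrail.edges_nodup _ _ (by simp) h.le

lemma det {seed : V → Bool} {clock : Bool → Sym2 V → ℝ} {w : ℕ → V} {T : ℕ → ℝ} {ty : ℕ → Bool}
    (hr : Run G (0, 0, 0) seed clock w T ty) (h0 : ∀ b u v, G.Adj u v → 0 ≤ clock b s(u, v))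
    {δ : ℝ} (hδ : 0 < δ) (h : ∀ v, ∃ n, ¬ Tr (fun b e => clock b e ≤ δ) n v ∅) {n : ℕ}
    (hs : seed (n + 1, 0, 0) = true) : Tendsto T atTop atTop ∧ Survives G w ty true := by
  obtain ⟨⟨w0, T0, -⟩, hr⟩ := hr
  have inj : Function.Injective w := Function.Injective.of_lt_imp_ne fun i j hij => by
    obtain ⟨k, rfl⟩ := Nat.exists_eq_add_of_lt hij
    exact (hr (i + k)).1 i (by omega)
  have h1 : ∀ m : ℕ, ∃ R : Set V, R.Finite ∧ ∀ k, T k < m * δ → w k ∈ R := fun m => by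
    induction m with
    | zero =>
      refine ⟨∅, Set.finite_empty, fun k => ?_⟩
      induction k using Nat.strong_induction_on with
      | _ k ih =>
      rcases k with _ | k
      · simp [T0]
      · obtain ⟨i, hi, h2, h3, -⟩ := (hr k).2.1
        exact fun h4 => ih i (by omega) (by linarith [h0 (ty i) _ _ h2])
    | succ m ih =>
      obtain ⟨R, hR, ih⟩ := ih
      refine ⟨_, fin_cl h ((hR.biUnion fun v _ => (D v).finite_toSet).insert (0, 0, 0)), fun k => ?_⟩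
      induction k using Nat.strong_induction_on with
      | _ k ih' =>
      rcases k with _ | k
      · exact fun _ => ⟨_, Or.inl rfl, by rw [w0]⟩
      · obtain ⟨i, hi, h2, h3, -⟩ := (hr k).2.1
        intro h4
        rcases le_or_gt (clock (ty i) s(w i, w (k + 1))) δ with h5 | h5
        · obtain ⟨v, h6, h7⟩ := ih' i (by omega) (by linarith [h0 (ty i) _ _ h2])
          exact ⟨v, h6, h7.trans (SimpleGraph.Adj.reachable ⟨h2, _, h5⟩)⟩
        · exact ⟨_, Or.inr (Set.mem_biUnion (ih i (by push_cast at h4; linarith)) (memD h2)), by rfl⟩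
  have h2 : Tendsto T atTop atTop := by
    rw [← Nat.cofinite_eq_atTop, tendsto_atTop]
    intro r
    obtain ⟨m, hm⟩ := exists_nat_gt (r / δ)
    obtain ⟨R, hR, h3⟩ := h1 m
    exact (hR.preimage inj.injOn).subset fun k hk => h3 k
      ((not_le.1 (show ¬ r ≤ T k from hk)).trans ((div_lt_iff₀ hδ).1 hm))
  have h3 : ∀ u v, G.Adj u v → (∃ k, w k = u) → ∃ k, w k = v := by
    rintro _ v h3 ⟨i, rfl⟩
    by_contra! h4
    obtain ⟨k, h5, h6⟩ := ((((tendsto_add_atTop_iff_nat 1).2 h2).eventually (eventually_gt_atTop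
      (T i + clock (ty i) s(w i, v)))).and (eventually_ge_atTop i)).exists
    exact h5.not_ge ((hr k).2.2 i h6 v h3 fun j _ => h4 j)
  have h4 : ∀ v, ∃ k, w k = v := fun v => by
    have h5 : ∀ u v (_ : G.Walk u v), (∃ k, w k = u) → ∃ k, w k = v := fun u v p => by
      induction p with
      | nil => exact id
      | cons h _ ih => exact fun h' => ih (h3 _ _ h h')
    exact (connG (0, 0, 0) v).elim fun p => h5 _ _ p ⟨0, w0⟩
  have h5 : ∀ k, n + 1 ≤ (w k).1 → ty k = true := fun k => by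
    induction k using Nat.strong_induction_on with
    | _ k ih =>
    rcases k with _ | k
    · simp [w0]
    · obtain ⟨i, hi, h6, -, h7⟩ := (hr k).2.1
      intro h8
      by_cases h9 : n + 1 ≤ (w i).1
      · simp [h7, ih i (by omega) h9]
      · have : w (k + 1) = (n + 1, 0, 0) := by
          simp only [G] at h6
          exact Prod.ext (by omega) (Prod.ext (by simp only; omega) (by simp only; omega))
        simp [h7, this, hs]
  refine ⟨h2, _, Set.infinite_of_injective_forall_mem (f := fun m : ℕ => ((n + 1, m, 0) : V))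
    (fun a b h => by simpa using h) (fun _ => Nat.le_refl (n + 1)), conn (n + 1), fun v hv => ?_⟩
  obtain ⟨k, rfl⟩ := h4 v
  exact ⟨k, rfl, h5 k hv⟩

lemma prob {Ω : Type} [MeasurableSpace Ω] {P : Measure Ω} {clock : Bool → Sym2 V → Ω → ℝ} {δ : ℝ}
    (hi : iIndepFun (fun e : Bool × G.edgeSet => clock e.1 e.2) P) {p : ℝ≥0∞}
    (hp : ∀ e : Bool × G.edgeSet, P (clock e.1 e.2 ⁻¹' Set.Iic δ) ≤ p) (n : ℕ) (v : V)
    (F : Finset (Bool × G.edgeSet)) : P ((⋂ e ∈ F, clock e.1 e.2 ⁻¹' Set.Iic δ) ∩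
      {ω | Tr (fun b e => clock b e ω ≤ δ) n v F}) ≤ p ^ F.card * (12 * p) ^ n := by
  classical
  induction n generalizing v F with
  | zero =>
    simp only [Tr, Set.ofPred_true, Set.inter_univ, pow_zero, mul_one]
    rw [hi.measure_inter_preimage_eq_mul F fun _ _ => measurableSet_Iic]
    exact Finset.prod_le_pow_card _ _ _ fun e _ => hp e
  | succ n ih =>
    let A : V × Bool → Set Ω := fun x => ⋃ h : G.Adj v x.1, ⋃ _ : (x.2, ⟨s(v, x.1), h⟩) ∉ F,
      (⋂ e ∈ insert (x.2, ⟨s(v, x.1), h⟩) F, clock e.1 e.2 ⁻¹' Set.Iic δ) ∩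
      {ω | Tr (fun b e => clock b e ω ≤ δ) n x.1 (insert (x.2, ⟨s(v, x.1), h⟩) F)}
    have h1 : ∀ x, P (A x) ≤ p ^ (F.card + 1) * (12 * p) ^ n := fun x => by
      by_cases h : G.Adj v x.1
      · by_cases h' : (x.2, ⟨s(v, x.1), h⟩) ∉ F
        · simp only [A, h, Set.iUnion_true, h', not_false_eq_true]
          exact (ih _ _).trans_eq (by rw [Finset.card_insert_of_notMem h'])
        · simp [A, h, h']
      · simp [A, h]
    refine (measure_mono (t := ⋃ x ∈ D v ×ˢ Finset.univ, A x) ?_).trans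
      ((measure_biUnion_finset_le _ _).trans ((Finset.sum_le_card_nsmul _ _ _
        fun x _ => h1 x).trans ?_))
    · rintro ω ⟨h2, u, h, b, h3, h4, h5⟩
      refine Set.mem_biUnion (x := (u, b)) (by simpa using memD h) ?_
      simp only [A, Set.mem_iUnion, Finset.set_biInter_insert]
      exact ⟨h, h3, ⟨h4, h2⟩, h5⟩
    · have h2 : (D v ×ˢ (Finset.univ : Finset Bool)).card ≤ 12 := by
        have := Finset.card_le_six (a := (v.1 + 1, v.2.1, v.2.2)) (b := (v.1 - 1, v.2.1, v.2.2))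
          (c := (v.1, v.2.1 + 1, v.2.2)) (d := (v.1, v.2.1 - 1, v.2.2))
          (e := (v.1, v.2.1, v.2.2 + 1)) (f := (v.1, v.2.1, v.2.2 - 1))
        simp only [Finset.card_product, Finset.card_univ, Fintype.card_bool, D]
        omega
      refine (nsmul_le_nsmul_left zero_le h2).trans_eq ?_
      rw [nsmul_eq_mul]; push_cast; ring

theorem result : ∃ (V : Type) (G : SimpleGraph V) (o : V), Infinite V ∧ G.Connected ∧
    (∀ v, (G.neighborSet v).encard ≤ 6) ∧
    (∀ v, ∀ n : ℕ, 1 ≤ n → {u | G.dist v u ≤ n}.encard ≤ (27 * n ^ 3 : ℕ)) ∧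
    (∃ d : ℝ, 1 < d ∧ ∃ c : ℝ, 0 < c ∧ ∀ S : Finset V,
      c * (S.card : ℝ) ^ ((d - 1) / d) ≤ {v | v ∈ S ∧ ∃ u ∉ S, G.Adj v u}.ncard) ∧
    (∀ seed clock, ∃ w T ty, Run G o seed clock w T ty) ∧
    ∀ lam : ℝ, 0 < lam → ∀ μ : ℝ, 0 < μ → μ < 1 →
      ∀ (Ω : Type) [MeasurableSpace Ω] (P : Measure Ω) [IsProbabilityMeasure P]
        (seed : V → Ω → Bool) (clock : Bool → Sym2 V → Ω → ℝ),
        iIndepFun (fun v : {v // v ≠ o} => seed v) P →
        (∀ v ≠ o, Measurable (seed v) ∧ P {ω | seed v ω = true} = ENNReal.ofReal μ) →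
        iIndepFun (fun e : Bool × G.edgeSet => clock e.1 e.2) P →
        (∀ b, ∀ e ∈ G.edgeSet, HasLaw (clock b e) (expMeasure (if b = true then lam else 1)) P) →
        ∀ᵐ ω ∂P, ∀ w T ty, Run G o (fun v => seed v ω) (fun b e => clock b e ω) w T ty →
          Tendsto T atTop atTop ∧ Survives G w ty true := by
  refine ⟨V, G, (0, 0, 0), inferInstance, connG, fun v => ?_, fun v n hn => ?_,
    ⟨2, by norm_num, 1, one_pos, fun S => ?_⟩, exists_run, ?_⟩
  · refine (Set.encard_le_encard (t := D v) fun u hu => memD hu).trans ?_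
    rw [Set.encard_coe_eq_coe_finsetCard]
    exact_mod_cast Finset.card_le_six
  · refine (Set.encard_le_encard (t := box v n) fun u hu => ?_).trans ?_
    · obtain ⟨p, hp⟩ := connG.exists_walk_length_eq_dist v u
      exact mem_box le_rfl p (hp.trans_le hu)
    · rw [Set.encard_coe_eq_coe_finsetCard, Nat.cast_le, show 27 * n ^ 3 = 3 * n * (3 * n * (3 * n))
        by ring]
      simp only [box, Finset.card_product, Nat.card_Icc]
      exact Nat.mul_le_mul (by omega) (Nat.mul_le_mul (by omega) (by omega))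
  · rw [one_mul, show ((2 : ℝ) - 1) / 2 = 1 / 2 by norm_num, ← Real.sqrt_eq_rpow,
      Real.sqrt_le_left (by positivity)]
    exact_mod_cast iso S
  intro lam hl μ h0 h1 Ω _ P _ seed clock i1 m1 i2 m2
  have hr : ∀ b : Bool, 0 < (if b = true then lam else 1) ∧ (if b = true then lam else 1) ≤ lam + 1 :=
    fun b => by cases b <;> simp <;> linarith
  have hc : ∀ (e : Bool × G.edgeSet) (x : ℝ), 0 ≤ x →
      P (clock e.1 e.2 ⁻¹' Set.Iic x) ≤ ENNReal.ofReal ((lam + 1) * x) := fun e x hx => by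
    have := isProbabilityMeasure_expMeasure (hr e.1).1
    rw [← Measure.map_apply_of_aemeasurable (m2 _ _ e.2.2).aemeasurable measurableSet_Iic,
      (m2 _ _ e.2.2).map_eq, ← ofReal_cdf, cdf_expMeasure_eq (hr e.1).1, if_pos hx]
    refine ENNReal.ofReal_le_ofReal ?_
    linarith [Real.add_one_le_exp (-((if e.1 = true then lam else 1) * x)),
      mul_le_mul_of_nonneg_right (hr e.1).2 hx]
  have a1 : ∀ᵐ ω ∂P, ∀ e : Bool × G.edgeSet, 0 ≤ clock e.1 e.2 ω := ae_all_iff.2 fun e =>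
    measure_mono_null (t := clock e.1 e.2 ⁻¹' Set.Iic 0) 
      (fun ω h => le_of_not_ge (show ¬ 0 ≤ clock e.1 e.2 ω from h))
      (by simpa using hc e 0 le_rfl)
  have a2 : ∀ᵐ ω ∂P, ∀ v, ∃ n, ¬ Tr (fun b e => clock b e ω ≤ 1 / (24 * (lam + 1))) n v ∅ := by
    refine ae_all_iff.2 fun v => le_zero_iff.1 (ge_of_tendsto' (ENNReal.tendsto_pow_atTop_nhds_zero_of_lt_one
      (r := 12 * ENNReal.ofReal ((lam + 1) * (1 / (24 * (lam + 1))))) ?_) fun n => ?_)
    · rw [show (lam + 1) * (1 / (24 * (lam + 1))) = 1 / 24 by field_simp, ← ENNReal.ofReal_ofNat,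
        ← ENNReal.ofReal_mul (by norm_num), ENNReal.ofReal_lt_one]
      norm_num
    · refine (measure_mono fun ω h => ?_).trans (by
        simpa using prob i2 (fun e => hc e (1 / (24 * (lam + 1))) (by positivity)) n v ∅)
      simpa using not_not.1 (not_exists.1 h n)
  have a3 : ∀ᵐ ω ∂P, ∃ n, seed (n + 1, 0, 0) ω = true := by
    refine le_zero_iff.1 (ge_of_tendsto' (ENNReal.tendsto_pow_atTop_nhds_zero_of_lt_one
      (r := 1 - ENNReal.ofReal μ) (ENNReal.sub_lt_self (by simp) (by simp) (by simpa))) fun n => ?_)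
    let e : ℕ ↪ {v : V // v ≠ (0, 0, 0)} := ⟨fun m => ⟨(m + 1, 0, 0), by simp⟩, fun a b h => by
      simpa using h⟩
    have h2 := i1.measure_inter_preimage_eq_mul ((Finset.range n).map e)
      (sets := fun _ => {true}ᶜ) fun _ _ => MeasurableSet.of_discrete
    rw [Finset.prod_congr rfl (g := fun _ => 1 - ENNReal.ofReal μ) fun v _ => by
      rw [Set.preimage_compl, prob_compl_eq_one_sub ((m1 v v.2).1 MeasurableSet.of_discrete),
        ← (m1 v v.2).2]; rfl, Finset.prod_const, Finset.card_map, Finset.card_range] at h2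
    refine (measure_mono fun ω h => Set.mem_iInter₂.2 fun v hv => ?_).trans_eq h2
    obtain ⟨m, -, rfl⟩ := Finset.mem_map.1 hv
    exact not_exists.1 h m
  filter_upwards [a1, a2, a3] with ω h2 h3 ⟨n, h4⟩ w T ty hr
  exact det hr (fun b u v h => h2 (b, ⟨s(u, v), h⟩)) (by positivity) h3 h4

end Pool.Agent.Results.MP_12f94a_pr.NoStrong
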